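import Pool.Agent.Helper59.IP.Main

/-!
# Parshin's conjecture and the independence polynomials of graphs

Let `k` be a finite prime field. For a separated scheme `X` of finite type over `k` let `W(X)` be its weight
complex (Gillet, Soulé; with rational coefficients Bondarko), a bounded complex of Chow motives, with
`W(X) = h(X)` for smooth projective `X`. For `n, i ∈ ℤ` let

* `A^{n,i}(X) = H^{2n+i}_c(X, ℚ(n))`, the motivic cohomology with compact supports;
* `B^{n,i}(X) = H^i(CH^n(W(X)) ⊗ ℚ)`.

There is a natural map `A^{n,i}(X) → B^{n,i}(X)` (the weight complex functor of Bondarko). For smooth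
projective `Y` it is the identity of `CH^n(Y) ⊗ ℚ` for `i = 0`, and `B^{n,i}(Y) = 0` for `i ≠ 0`
(hypothesis `pure`), so that Parshin's conjecture for `Y` in all weights is the bijectivity of these maps.
The other hypotheses: `IsWeightPair` (long exact sequences of closed-open pairs, affine bundles, products
with `𝔾_m`), `WeightGen` (smooth projective schemes generate: alterations), and the point (Quillen).

For a graph `G` with the vertices `V` let `I_G = ∑_s ∏_{v ∈ s} x_v`, the sum over the independent sets `s`
(sets of pairwise non-adjacent vertices) of `G`: the multivariate independence polynomial. It is the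
partition function of the lattice gas on `G` with hard core interaction and activities `x_v`. `G` runs
through the graphs whose vertices are covered by three cliques (`ThreeCliques`), so that an independent set
has at most three elements and `I_G` is a cubic polynomial: the sum of `∏_{v ∈ s} x_v` over all cliques `s`
of the 3-colourable complementary graph.

**Theorem.** Parshin's conjecture for all smooth projective schemes over `k` in all weights is equivalent to
the bijectivity of the maps `H^{2n+i}_c(X, ℚ(n)) → H^i(CH^n(W(X)) ⊗ ℚ)`, for all `n` and `i`, for each one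
of the following classes of schemes `X`: all separated schemes of finite type; the complements of `I_G = 0`
in the affine spaces, for the graphs `G` covered by three cliques; the cubic hypersurfaces `I_G = 0`; the
complements of `I_G = 0` in the tori; the intersections of `I_G = 0` with the tori.

The universality theorem for these polynomials is `Pool.Agent.Helper59.IP.ind_tfae`: a property of schemes
of finite type that is closed under closed-open decompositions and the usual affine bundles is true for all
schemes if it is true for the complements of the hypersurfaces `I_G = 0`. The idea: let `Γ` be covered by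
two cliques and `A_1, …, A_m` sets of vertices. Add to `Γ` a vertex `w` adjacent to `Γ`, a clique of
vertices `v_r` adjacent to `w` and to the vertices of `Γ` outside of `A_r`, and a vertex `u` adjacent to the
`v_r`. The graph is covered by three cliques and has the polynomial `(1 + u)(w + I_Γ) + ∑_r v_r I_{A_r}`.
Cutting along `w + I_Γ = 0`, passing from the invertible values of `∑ v_r I_{A_r}` to the value one, and
using Jouanolou's device one arrives at the common zeros of the polynomials `I_{A_r}` of the induced
subgraphs, and these describe the trilinear hypersurfaces `T = 1`, which are universal by a theorem of the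
library.
-/

set_option autoImplicit false

open AlgebraicGeometry Pool.Agent.Y116.UV Pool.Agent.Z125.UN Pool.Agent.Q193.LT
  Pool.Agent.Helper3.GU Pool.Agent.Helper59.IP

universe w

namespace Pool.Agent.Results.MP_de59b4_ag.IndependencePolynomials

/-- Parshin's conjecture for `Y` in all weights: `A^{n,i}(Y) = H^{2n+i}(Y, ℚ(n)) = 0` for `i ≠ 0`. -/
def Parshin {k : Type} [Field k] (C : PairData.{w} k (ℤ × ℤ) ℚ) (Y : Sch k) : Prop :=
  ∀ n i : ℤ, i ≠ 0 → Subsingleton (C.A (n, i) Y)

/-- The weight homology of smooth projective schemes is pure: `A^{n,0}(Y) → B^{n,0}(Y)` is bijective, and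
`B^{n,i}(Y) = 0` for `i ≠ 0`. -/
def Pure {k : Type} [Field k] (C : PairData.{w} k (ℤ × ℤ) ℚ) : Prop :=
  ∀ Y : Sch k, SmoothProj Y → ∀ n : ℤ, Function.Bijective (C.ρ (n, 0) Y).hom ∧
    ∀ i : ℤ, i ≠ 0 → Subsingleton (C.B (n, i) Y)

lemma parshin_iff {k : Type} [Field k] {C : PairData.{w} k (ℤ × ℤ) ℚ} (h : Pure C) {Y : Sch k}
    (hY : SmoothProj Y) : Parshin C Y ↔ BijAll C Y := by
  constructor
  · rintro h1 ⟨n, i⟩
    by_cases hi : i = 0
    · subst hi
      exact (h Y hY n).1
    · have h2 := h1 n i hi
      have h3 := (h Y hY n).2 i hi
      exact ⟨fun a b _ => Subsingleton.elim a b, fun b => ⟨0, Subsingleton.elim _ b⟩⟩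
  · intro h1 n i hi
    have h3 := (h Y hY n).2 i hi
    exact (h1 (n, i)).1.subsingleton

/-- **Parshin's conjecture and independence polynomials of graphs.** See the explanations above. -/
theorem result {k : Type} [Field k] [Finite k] (hk : (Nat.card k).Prime)
    {C : PairData.{w} k (ℤ × ℤ) ℚ} (hC : IsWeightPair C) (gC : WeightGen C) (pure : Pure C)
    (point : BijAll C (aff k k)) :
    List.TFAE [∀ Y : Sch k, SmoothProj Y → Parshin C Y,
      ∀ X : Sch k, FT True X → BijAll C X,
      ∀ (n : ℕ) (G : SimpleGraph (Fin n)), ThreeCliques G → BijAll C (indS k G),
      ∀ (n : ℕ) (G : SimpleGraph (Fin n)), ThreeCliques G → BijAll C (indH k G),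
      ∀ (n : ℕ) (G : SimpleGraph (Fin n)), ThreeCliques G → BijAll C (indT k G),
      ∀ (n : ℕ) (G : SimpleGraph (Fin n)), ThreeCliques G → BijAll C (indHT k G)] :=
  ind_cons_congr (ind_pair gC hC point (frac_of_card hk))
    ⟨fun h1 Y hY => (parshin_iff pure hY).1 (h1 Y hY),
      fun h1 Y hY => (parshin_iff pure hY).2 (h1 Y hY)⟩

end Pool.Agent.Results.MP_de59b4_ag.IndependencePolynomials
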