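import Pool.Agent.Helper13.RM.CList
import Pool.Agent.Helper3.GU.Fin

/-!
# Parshin's conjecture in one weight and one dimension, and moduli spaces of planar configurations

Let `k` be a finite prime field. For a separated scheme `X` of finite type over `k` let
`H n i X = H^i_c(X, ℚ(n))` be the motivic cohomology with compact supports. The properties that are used
(`IsCompactSupport`): invariance under isomorphisms, the vanishing for the empty scheme, and the exactness
of `H^i_c(U, ℚ(n)) → H^i_c(X, ℚ(n)) → H^i_c(Z, ℚ(n))` for closed subschemes `Z` with the open complement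
`U`.

Let `P^n(d)` be Parshin's conjecture in the weight `n` for smooth projective schemes of dimension at most
`d`: `H^i(Y, ℚ(n)) = 0` for `i ≠ 2n`. Two facts are used: `H^i(Y, ℚ(n)) = 0` for `i > 2n` and smooth
projective `Y` (`Upper`); and `P^n(d)` implies `H^i_c(X, ℚ(n)) = 0` for all `i < 2n` and all separated
schemes `X` of finite type and of dimension at most `d` (`Generated`, Geisser, by the alterations of
de Jong).

A configuration of `n + 4` points in the projective plane that contains the projective frame
`e_1, e_2, e_3, e_1 + e_2 + e_3` has a matroid `M` of rank three (`Framed M`). If the points are different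
the matroid is simple. `modS k M` is the moduli space of the configurations of points with the matroid
`M`: the affine scheme of the normalised vectors such that the determinants of the triples which are
bases of `M` are invertible and the other ones are zero.

**Theorem.** (1) For each scheme `X` over `k` there is a finite list of simple matroids `M_1, …, M_r` of
rank three whose moduli spaces are integral, smooth, and of dimension at most `dim X`, such that for all
`n` and `i` (and all theories `H`): if `H^i_c(modS M_j, ℚ(n)) = 0` for all `j` then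
`H^i_c(X, ℚ(n)) = 0`.

(2) For each weight `n` and each `d` the conjecture `P^n(d)` is equivalent to the vanishing of
`H^i_c(modS k M, ℚ(n))` for `i < 2n` for all simple matroids `M` of rank three whose moduli space is
integral, smooth, and of dimension at most `d`.

(3) For each weight `n` the conjecture `P^n` is equivalent to this vanishing without the condition on the
dimension.

(4) For all `n`, `i`, `d`: `H^i_c(X, ℚ(n)) = 0` for all `X` of dimension at most `d` if and only if this
is so for the smooth integral moduli spaces of dimension at most `d`.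
-/

set_option autoImplicit false

open CategoryTheory AlgebraicGeometry Pool.Agent.Y116.UV Pool.Agent.Q193.LT Pool.Agent.Helper3.GU
  Pool.Agent.Helper13.RM

universe w

namespace Pool.Agent.Results.MP_de59b4_ag.OneWeight

/-- The groups `H n i X = H^i_c(X, ℚ(n))`: isomorphism invariance, the empty scheme, and exactness in the
middle for a closed subscheme `Z` of `X` and its open complement `U`. -/
structure IsCompactSupport {k : Type} [Field k] (H : ℤ → ℤ → Sch k → ModuleCat.{w} ℚ) : Prop where
  iso : ∀ {X Y : Sch k}, FT True X → Nonempty (X ≅ Y) → ∀ n i, Nonempty (H n i X ≅ H n i Y)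
  empty : ∀ X : Sch k, IsEmpty X.left → ∀ n i, Subsingleton (H n i X)
  exact : ∀ {Z X U : Sch k} (z : Z ⟶ X) (u : U ⟶ X), FT True X → IsTriple z u → ∀ n i,
    ∃ (f : H n i U →ₗ[ℚ] H n i X) (g : H n i X →ₗ[ℚ] H n i Z), Function.Exact f g

/-- `H^i(Y, ℚ(n)) = 0` for `i > 2n` and smooth projective `Y`. -/
def Upper {k : Type} [Field k] (H : ℤ → ℤ → Sch k → ModuleCat.{w} ℚ) : Prop :=
  ∀ (n i : ℤ) (Y : Sch k), SmoothProj Y → 2 * n < i → Subsingleton (H n i Y)

/-- `H^i_c(X, ℚ(n)) = 0` for `i < 2n`. -/
def Below {k : Type} [Field k] (H : ℤ → ℤ → Sch k → ModuleCat.{w} ℚ) (n : ℤ) (X : Sch k) : Prop :=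
  ∀ i : ℤ, i < 2 * n → Subsingleton (H n i X)

/-- Smooth projective schemes generate in each dimension: if `H^i(Y, ℚ(n)) = 0` for all `i < 2n` and all
smooth projective `Y` of dimension at most `d` then `H^i_c(X, ℚ(n)) = 0` for all `i < 2n` and all
separated schemes `X` of finite type and of dimension at most `d`. -/
def Generated {k : Type} [Field k] (H : ℤ → ℤ → Sch k → ModuleCat.{w} ℚ) : Prop :=
  ∀ (n : ℤ) (d : ℕ), (∀ Y : Sch k, SmoothProj Y → DimAt Y d → Below H n Y) →
    ∀ X : Sch k, FT True X → DimAt X d → Below H n X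

/-- Parshin's conjecture `P^n` for `Y`: `H^i(Y, ℚ(n)) = 0` for `i ≠ 2n`. -/
def Parshin {k : Type} [Field k] (H : ℤ → ℤ → Sch k → ModuleCat.{w} ℚ) (n : ℤ) (Y : Sch k) : Prop :=
  ∀ i : ℤ, i ≠ 2 * n → Subsingleton (H n i Y)

section

variable {k : Type} [Field k] {H : ℤ → ℤ → Sch k → ModuleCat.{w} ℚ}

theorem cut_one (hH : IsCompactSupport H) (n i : ℤ) : Cut True fun X => Subsingleton (H n i X) where
  iso hX e h := by
    obtain ⟨e⟩ := hH.iso hX e n i
    exact e.toLinearEquiv.symm.injective.subsingleton
  empty X hX := hH.empty X hX n i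
  total {Z X U} z u hX ht hZ hU := by
    obtain ⟨f, g, h⟩ := hH.exact z u hX ht n i
    refine ⟨fun a b => ?_⟩
    have h0 : ∀ x : H n i X, x = 0 := by
      intro x
      obtain ⟨y, rfl⟩ := (h x).1 (Subsingleton.elim _ _)
      rw [Subsingleton.elim y 0, map_zero]
    rw [h0 a, h0 b]

theorem cut_below (hH : IsCompactSupport H) (n : ℤ) : Cut True (Below H n) where
  iso hX e h i hi := (cut_one hH n i).iso hX e (h i hi)
  empty X hX i _ := (cut_one hH n i).empty X hX
  total z u hX ht hZ hU i hi := (cut_one hH n i).total z u hX ht (hZ i hi) (hU i hi)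

lemma parshin_iff (h : Upper H) {n : ℤ} {Y : Sch k} (hY : SmoothProj Y) :
    Parshin H n Y ↔ Below H n Y := by
  constructor
  · exact fun h1 i hi => h1 i (by omega)
  · intro h1 i hi
    rcases lt_or_gt_of_ne hi with h2 | h2
    · exact h1 i h2
    · exact h n i Y hY h2

end

/-- **Parshin's conjecture in one weight and one dimension.** See the explanations above. -/
theorem result {k : Type} [Field k] [Finite k] (hk : (Nat.card k).Prime) :
    (∀ X : Sch k, FT True X →
      ∃ L : List Mat, (∀ M ∈ L, SmoothMod k (topologicalKrullDim X.left) M.2) ∧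
        ∀ H : ℤ → ℤ → Sch k → ModuleCat.{w} ℚ, IsCompactSupport H →
          ∀ n i : ℤ, (∀ M ∈ L, Subsingleton (H n i (modS k M.2))) → Subsingleton (H n i X)) ∧
    ∀ H : ℤ → ℤ → Sch k → ModuleCat.{w} ℚ, IsCompactSupport H → Upper H → Generated H →
      (∀ (n : ℤ) (d : ℕ), List.TFAE [∀ Y : Sch k, SmoothProj Y → DimAt Y d → Parshin H n Y,
        ∀ X : Sch k, FT True X → DimAt X d → Below H n X,
        ∀ (m : ℕ) (M : Matroid (Fin 4 ⊕ Fin m)), SmoothMod k d M → Below H n (modS k M)]) ∧
      (∀ n : ℤ, List.TFAE [∀ Y : Sch k, SmoothProj Y → Parshin H n Y,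
        ∀ X : Sch k, FT True X → Below H n X,
        ∀ (d m : ℕ) (M : Matroid (Fin 4 ⊕ Fin m)), SmoothMod k d M → Below H n (modS k M)]) ∧
      ∀ (n i : ℤ) (d : ℕ), (∀ X : Sch k, FT True X → DimAt X d → Subsingleton (H n i X)) ↔
        ∀ (m : ℕ) (M : Matroid (Fin 4 ⊕ Fin m)), SmoothMod k d M →
          Subsingleton (H n i (modS k M)) := by
  have hR : Presents ({0, 1} : Set k) := presents_frac (frac_of_card hk)
  refine ⟨fun X hX => ?_, fun H hH hU hG => ⟨fun n d => ?_, fun n => ?_, fun n i d => ?_⟩⟩
  · obtain ⟨L, hL, h⟩ := config_list hR X hX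
    exact ⟨L, hL, fun H hH n i hM => h _ (cut_one hH n i) hM⟩
  · tfae_have 1 → 2 := fun h => hG n d fun Y hY hd => (parshin_iff hU hY).1 (h Y hY hd)
    tfae_have 2 → 1 := fun h Y hY hd => (parshin_iff hU hY).2 (h Y hY.ft hd)
    tfae_have 2 ↔ 3 := config_iff_smooth (cut_below hH n) hR d
    tfae_finish
  · tfae_have 2 → 1 := fun h Y hY => (parshin_iff hU hY).2 (h Y hY.ft)
    tfae_have 3 → 2 := fun h X hX => config_smooth (cut_below hH n) hR
      (fun m M h1 h2 h3 h4 => h (3 * m) m M ⟨h1, h2, h3, h4, dim_modT _⟩) X hX
    tfae_have 1 → 3 := fun h d m M hM => hG n d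
      (fun Y hY _ => (parshin_iff hU hY).1 (h Y hY)) _ (ft_modT _) hM.dim
    tfae_finish
  · exact config_iff_smooth (cut_one hH n i) hR d

end Pool.Agent.Results.MP_de59b4_ag.OneWeight
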