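import Pool.Agent.Helper3.GM.App

/-!
# Parshin's conjecture in one weight for one variety and finitely many varieties of sparse matrices

Let `X` be **one** smooth projective variety over a finite field `𝔽_q`, `q = p^r`. It is considered as a smooth
projective scheme `S` over `𝔽_p`. Let `n` be **one** integer. `P^n` for `X` is the statement that the groups
`H^i(X, ℤ(n))`, `i ≠ 2 n`, are torsion groups; it is equivalent to `H^i(X, ℚ(n)) = 0` for all `i ≠ 2 n`.

For a smooth projective scheme `Y` over `𝔽_p` let `H^{(m)}(Y)` be the sum of the groups `H^j(Y, ℚ(m))`,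
`j ≠ 2 m`, of rational motivic cohomology (rational higher Chow groups), and let `B^m(Y) ⊆ H^{(m)}(Y)` be the
part which comes from `X` in the weight `n`: the subspace generated by the classes
`c_*(x) = pr_{Y*}(c · pr_S^* x)` for the elements `x` of `H^{(n)}(S) = ⨁_{i ≠ 2n} H^i(X, ℚ(n))` and the cycles
`c` on `S × Y`. This is an additive functor of the Chow motive of `Y`, and `B^m(Y) = 0` for all `m` if and only
if all `c_*(x)` are zero (`Killed`). For a separated scheme `Z` of finite type over `𝔽_p` let `W(Z)` be its
weight complex (Gillet, Soulé, Bondarko; `W(Z) = h(Z)` for smooth projective `Z`), and put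
`B^{m,i}(Z) = H^i(B^m(W(Z)))`, `A^{m,i}(Z) = 0`. Then `BijAll C Z`, the bijectivity of the maps
`A^{m,i}(Z) → B^{m,i}(Z)`, says that the part of the motivic cohomology of the weight complex of `Z` which
comes from `X` in the weight `n` is zero.

For a set `T` of positions in the `N × N` matrices with at most three positions in each row and in each
column (`Sparse`) let `detS` be the determinant of the generic matrix with zeros outside of `T`. (With two
positions instead of three it would be a product of monomials and binomials.)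

**Theorem.** There is a finite list `L` of sets `T` of positions, with at most three positions in each row and
in each column, which depends only on `S` (not on the weight `n`) such that the following statements are
equivalent.

* `P^n` holds for `X`: the groups `H^i(X, ℤ(n))` are torsion groups for all `i ≠ 2 n`.
* The part which comes from `X` in the weight `n` is zero for all separated schemes `Z` of finite type over
  `𝔽_p`.
* It is zero for the schemes of the invertible matrices with zeros outside of `T`, `T` in `L`.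
* It is zero for the schemes of the matrices of determinant one with zeros outside of `T`, `T` in `L`.
* It is zero for the schemes of the matrices of determinant zero with zeros outside of `T`, `T` in `L`.
* It is zero for the schemes of the invertible matrices with zeros outside of `T` and invertible entries
  at all positions in `T`, `T` in `L`.
-/

set_option autoImplicit false

open AlgebraicGeometry Pool.Agent.Y116.UV Pool.Agent.Z125.UN Pool.Agent.Q193.LT
  Pool.Agent.Helper3.GU Pool.Agent.Helper3.GM TensorProduct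

universe w

namespace Pool.Agent.Results.MP_de59b4_ag.SparseMatrices

/-- A smooth projective variety `X` over a finite field of characteristic `p`, considered as a scheme `S` over
`𝔽_p`, a weight `n`, and the rational motivic cohomology of the smooth projective schemes over `𝔽_p`. -/
structure ParshinData (p : ℕ) [Fact p.Prime] (S : Sch (ZMod p)) (n : ℤ) where
  /-- `H m Y = ⨁_{j ≠ 2m} H^j(Y, ℚ(m))` -/
  H : ℤ → Sch (ZMod p) → ModuleCat.{0} ℚ
  /-- the algebraic cycles on `S × Y` which map `H^i(S, ℚ(n))` to `H^j(Y, ℚ(m))`, `j - 2 m = i - 2 n` -/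
  Cyc : ℤ → Sch (ZMod p) → Type
  /-- the operation `x ↦ c_*(x)` of the cycle `c` -/
  act : ∀ {m : ℤ} {Y : Sch (ZMod p)}, Cyc m Y → H n S →ₗ[ℚ] H m Y
  /-- the diagonal of `S × S` -/
  diag : Cyc n S
  /-- `H^i(X, ℤ(n))` -/
  G : ℤ → Type
  /-- the group structure of `H^i(X, ℤ(n))` -/
  grp : ∀ i, AddCommGroup (G i)

variable {p : ℕ} [Fact p.Prime] {S : Sch (ZMod p)} {n : ℤ}

instance (D : ParshinData p S n) (i : ℤ) : AddCommGroup (D.G i) := D.grp i

/-- The diagonal operates as the identity, and `H^{(n)}(S)` is the direct sum of the spaces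
`H^i(X, ℚ(n)) = ℚ ⊗ H^i(X, ℤ(n))`, `i ≠ 2 n`. -/
structure IsParshin (D : ParshinData p S n) : Prop where
  act_diag : ∀ x, D.act D.diag x = x
  dec : Nonempty (D.H n S ≃+ (Π₀ i : {i : ℤ // i ≠ 2 * n}, ℚ ⊗[ℤ] D.G i.1))

/-- `P^n` for the variety `X`: the groups `H^i(X, ℤ(n))`, `i ≠ 2 n`, are torsion groups. -/
def ParshinFor (D : ParshinData p S n) : Prop := ∀ i : ℤ, i ≠ 2 * n → IsAddTorsion (D.G i)

/-- The images in the motivic cohomology of `Y` of the elements of `H^i(X, ℚ(n))`, `i ≠ 2 n`, are zero. -/
def Killed (D : ParshinData p S n) (Y : Sch (ZMod p)) : Prop :=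
  ∀ m, ∀ c : D.Cyc m Y, ∀ x, D.act c x = 0

lemma torsion_iff (G : Type) [AddCommGroup G] :
    IsAddTorsion G ↔ ∀ x : ℚ ⊗[ℤ] G, x = 0 := by
  have key : ∀ x : G, (1 : ℚ) ⊗ₜ[ℤ] x = 0 ↔ ∃ c : nonZeroDivisors ℤ, c • x = 0 := by
    intro x
    have h := IsLocalizedModule.eq_zero_iff (nonZeroDivisors ℤ) (TensorProduct.mk ℤ ℚ G 1) (m := x)
    simpa using h
  constructor
  · intro h x
    induction x using TensorProduct.induction_on with
    | zero => rfl
    | add a b ha hb => rw [ha, hb, add_zero]
    | tmul r g =>
      have h1 : (1 : ℚ) ⊗ₜ[ℤ] g = 0 := by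
        obtain ⟨k, hk, h2⟩ := (isOfFinAddOrder_iff_nsmul_eq_zero).1 (h g)
        refine (key g).2 ⟨⟨(k : ℤ), mem_nonZeroDivisors_of_ne_zero (by exact_mod_cast hk.ne')⟩, ?_⟩
        change (k : ℤ) • g = 0
        rw [natCast_zsmul]
        exact h2
      have h2 : r ⊗ₜ[ℤ] g = r • ((1 : ℚ) ⊗ₜ[ℤ] g) := by
        rw [TensorProduct.smul_tmul', smul_eq_mul, mul_one]
      rw [h2, h1, smul_zero]
  · intro h g
    obtain ⟨⟨c, hc⟩, h1⟩ := (key g).1 (h _)
    have hc0 : c ≠ 0 := nonZeroDivisors.ne_zero hc
    rw [isOfFinAddOrder_iff_zsmul_eq_zero]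
    exact ⟨c, hc0, h1⟩

lemma parshin_iff {D : ParshinData p S n} (h : IsParshin D) : ParshinFor D ↔ ∀ x : D.H n S, x = 0 := by
  obtain ⟨e⟩ := h.dec
  constructor
  · intro h2 x
    apply e.injective
    rw [map_zero]
    apply DFinsupp.ext
    intro i
    exact (torsion_iff _).1 (h2 i.1 i.2) _
  · intro h2 i hi
    classical
    rw [torsion_iff]
    intro a
    have h4 : DFinsupp.single (β := fun i : {i : ℤ // i ≠ 2 * n} => (ℚ ⊗[ℤ] D.G i.1)) ⟨i, hi⟩ a = 0 := by
      apply e.symm.injective
      rw [h2 (e.symm _), map_zero]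
    have h5 := DFunLike.congr_fun h4 ⟨i, hi⟩
    rw [DFinsupp.single_eq_same] at h5
    exact h5

/-- **Parshin's conjecture in one weight for one variety and finitely many varieties of matrices.** See the
explanations above. -/
theorem result {p : ℕ} [Fact p.Prime] {S : Sch (ZMod p)} (hS : SmoothProj S) :
    ∃ L : List (Σ N : ℕ, Finset (Fin N × Fin N)), (∀ T ∈ L, Sparse T.2) ∧
      ∀ (n : ℤ) (D : ParshinData p S n) (C : PairData.{w} (ZMod p) (ℤ × ℤ) ℚ), IsParshin D →
        IsWeightPair C → WeightGen C → BijAll C (aff (ZMod p) (ZMod p)) →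
        (∀ Y, SmoothProj Y → (BijAll C Y ↔ Killed D Y)) →
        List.TFAE [ParshinFor D,
          ∀ X : Sch (ZMod p), FT True X → BijAll C X,
          ∀ T ∈ L, BijAll C (invS (ZMod p) T.2),
          ∀ T ∈ L, BijAll C (oneS (ZMod p) T.2),
          ∀ T ∈ L, BijAll C (zeroS (ZMod p) T.2),
          ∀ T ∈ L, BijAll C (torS (ZMod p) T.2)] := by
  obtain ⟨L, hL, h⟩ := mat_list_pair (frac_of_surj ZMod.intCast_surjective) S hS
  refine ⟨L, hL, fun n D C hD hC hg h1 bij => h C hg hC h1 (ParshinFor D) (fun h => ?_)
    fun h Y hY => (bij Y hY).mpr fun m c x => ?_⟩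
  · refine (parshin_iff hD).mpr fun x => ?_
    have h1 := (bij S hS).mp h n D.diag x
    rwa [hD.act_diag] at h1
  · rw [(parshin_iff hD).mp h x, map_zero]

end Pool.Agent.Results.MP_de59b4_ag.SparseMatrices
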